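import Pool.Agent.K3h74.GL.Stm

/-!
# Green's formula with cut-offs in the half plane (brick GREEN)
-/

set_option autoImplicit false

namespace Pool.Agent.K3h56.GL

open MeasureTheory Set Filter Topology
open scoped ENNReal NNReal

/-- Green's identity on an interval -/
theorem green1 {a b : ℝ} (hab : a ≤ b) {w w1 w2 f f1 f2 : ℝ → ℝ}
    (hw : ∀ x ∈ Icc a b, HasDerivAt w (w1 x) x) (hw1 : ∀ x ∈ Icc a b, HasDerivAt w1 (w2 x) x)
    (hf : ∀ x ∈ Icc a b, HasDerivAt f (f1 x) x) (hf1 : ∀ x ∈ Icc a b, HasDerivAt f1 (f2 x) x)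
    (hw2 : ContinuousOn w2 (Icc a b)) (hf2 : ContinuousOn f2 (Icc a b)) :
    ∫ x in a..b, (w2 x * f x - w x * f2 x) =
      (w1 b * f b - w b * f1 b) - (w1 a * f a - w a * f1 a) := by
  have hcw : ContinuousOn w (Icc a b) := fun x hx => (hw x hx).continuousAt.continuousWithinAt
  have hcf : ContinuousOn f (Icc a b) := fun x hx => (hf x hx).continuousAt.continuousWithinAt
  apply intervalIntegral.integral_eq_sub_of_hasDerivAt (f := fun x => w1 x * f x - w x * f1 x)
  · intro x hx
    rw [uIcc_of_le hab] at hx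
    have h1 := (hw1 x hx).mul (hf x hx)
    have h2 := (hw x hx).mul (hf1 x hx)
    have h3 := h1.sub h2
    have e : w2 x * f x + w1 x * f1 x - (w1 x * f1 x + w x * f2 x) = w2 x * f x - w x * f2 x := by
      ring
    rw [e] at h3
    exact h3
  · apply ContinuousOn.intervalIntegrable
    rw [uIcc_of_le hab]
    exact (hw2.mul hcf).sub (hcw.mul hf2)

/-- cut-off in `z` -/
noncomputable def hh (R z : ℝ) : ℝ := (1 - (z / R) ^ 2) ^ 2

/-- cut-off in `y` -/
noncomputable def gg (e R y : ℝ) : ℝ := (y - e) * (1 - y / R) ^ 2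

theorem hh_nonneg (R z : ℝ) : 0 ≤ hh R z := sq_nonneg _

theorem hh_le_one {R z : ℝ} (hR : 0 < R) (hz : z ∈ Icc (-R) R) : hh R z ≤ 1 := by
  unfold hh
  have h1 : (z / R) ^ 2 ≤ 1 := by
    rw [div_pow, div_le_one (by positivity)]
    nlinarith [hz.1, hz.2]
  have h2 : 0 ≤ (z / R) ^ 2 := sq_nonneg _
  nlinarith

theorem gg_nonneg {e R y : ℝ} (hy : e ≤ y) : 0 ≤ gg e R y :=
  mul_nonneg (by linarith) (sq_nonneg _)

theorem gg_le {e R y : ℝ} (he : 0 < e) (hy : y ∈ Icc e R) : gg e R y ≤ R := by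
  unfold gg
  have hR : 0 < R := by linarith [hy.1, hy.2]
  have h1 : 0 ≤ 1 - y / R := by
    rw [sub_nonneg, div_le_one hR]
    exact hy.2
  have h2 : 1 - y / R ≤ 1 := by
    have : 0 ≤ y / R := div_nonneg (by linarith [hy.1]) hR.le
    linarith
  have h3 : (1 - y / R) ^ 2 ≤ 1 := by nlinarith
  have h4 : y - e ≤ R := by linarith [hy.2]
  have h5 : 0 ≤ y - e := by linarith [hy.1]
  calc (y - e) * (1 - y / R) ^ 2 ≤ (y - e) * 1 := mul_le_mul_of_nonneg_left h3 h5
    _ ≤ R := by linarith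

/-- the estimate in `z` -/
theorem est_z {R : ℝ} (hR : 0 < R) {f f1 f2 : ℝ → ℝ}
    (hf : ∀ x, HasDerivAt f (f1 x) x) (hf1 : ∀ x, HasDerivAt f1 (f2 x) x)
    (hf2 : Continuous f2) (h0 : ∀ x, 0 ≤ f x) :
    ∫ z in Icc (-R) R, hh R z * -f2 z ≤ 4 / R ^ 2 * ∫ z in Icc (-R) R, f z := by
  have hab : -R ≤ R := by linarith
  have hcf : Continuous f := continuous_iff_continuousAt.2 fun x => (hf x).continuousAt
  rw [integral_Icc_eq_integral_Ioc, integral_Icc_eq_integral_Ioc,
    ← intervalIntegral.integral_of_le hab, ← intervalIntegral.integral_of_le hab]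
  have key := green1 hab (w := hh R) (w1 := fun z => -(4 * z / R ^ 2) * (1 - (z / R) ^ 2))
    (w2 := fun z => -(4 / R ^ 2) + 12 * z ^ 2 / R ^ 4) (f := f) (f1 := f1) (f2 := f2)
    (fun x _ => by
      have h1 : HasDerivAt (fun z : ℝ => 1 - (z / R) ^ 2) (-(2 * (x / R) * (1 / R))) x := by
        have h2 : HasDerivAt (fun z : ℝ => z / R) (1 / R) x := (hasDerivAt_id x).div_const R
        have h3 := (h2.pow 2).const_sub 1
        simpa using h3
      have h4 := h1.pow 2
      have h5 : HasDerivAt (hh R) _ x := h4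
      refine h5.congr_deriv ?_
      simp only [Nat.cast_ofNat, Nat.add_one_sub_one, pow_one]
      field_simp
      ring)
    (fun x _ => by
      have h2 : HasDerivAt (fun z : ℝ => z / R) (1 / R) x := (hasDerivAt_id x).div_const R
      have h3 : HasDerivAt (fun z : ℝ => 1 - (z / R) ^ 2) (-(2 * (x / R) * (1 / R))) x := by
        have h3 := (h2.pow 2).const_sub 1
        simpa using h3
      have h4 : HasDerivAt (fun z : ℝ => -(4 * z / R ^ 2)) (-(4 / R ^ 2)) x := by
        have := (((hasDerivAt_id x).const_mul (4 : ℝ)).div_const (R ^ 2)).fun_neg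
        simpa using this
      have h5 : HasDerivAt (fun z => -(4 * z / R ^ 2) * (1 - (z / R) ^ 2)) _ x := h4.mul h3
      refine h5.congr_deriv ?_
      field_simp
      ring)
    (fun x _ => hf x) (fun x _ => hf1 x) (by fun_prop) hf2.continuousOn
  have e1 : hh R R = 0 := by
    unfold hh
    rw [div_self hR.ne']
    norm_num
  have e2 : hh R (-R) = 0 := by
    unfold hh
    rw [neg_div, div_self hR.ne']
    norm_num
  have e3 : (1 : ℝ) - (R / R) ^ 2 = 0 := by
    rw [div_self hR.ne']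
    norm_num
  have e4 : (1 : ℝ) - (-R / R) ^ 2 = 0 := by
    rw [neg_div, div_self hR.ne']
    norm_num
  rw [e1, e2, e3, e4] at key
  have hi1 : IntervalIntegrable (fun x => (-(4 / R ^ 2) + 12 * x ^ 2 / R ^ 4) * f x) volume (-R) R :=
    (by fun_prop : Continuous fun x => (-(4 / R ^ 2) + 12 * x ^ 2 / R ^ 4) * f x).intervalIntegrable _ _
  have hch : Continuous (hh R) := by unfold hh; fun_prop
  have hi2 : IntervalIntegrable (fun x => hh R x * f2 x) volume (-R) R :=
    (hch.mul hf2).intervalIntegrable _ _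
  rw [intervalIntegral.integral_sub hi1 hi2] at key
  have e5 : ∫ z in (-R)..R, hh R z * -f2 z = -∫ z in (-R)..R, hh R z * f2 z := by
    rw [← intervalIntegral.integral_neg]
    congr 1
    ext z
    ring
  rw [e5]
  have e6 : ∫ z in (-R)..R, (-(4 / R ^ 2) + 12 * z ^ 2 / R ^ 4) * f z ≥
      ∫ z in (-R)..R, -(4 / R ^ 2) * f z := by
    apply intervalIntegral.integral_mono_on hab
      ((continuous_const.mul hcf).intervalIntegrable _ _) hi1
    intro z _
    apply mul_le_mul_of_nonneg_right _ (h0 z)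
    have : 0 ≤ 12 * z ^ 2 / R ^ 4 := by positivity
    linarith
  rw [intervalIntegral.integral_const_mul] at e6
  linarith

/-- the estimate in `y` -/
theorem est_y {e R : ℝ} (he : 0 < e) (hR : e ≤ R) {f f1 f2 : ℝ → ℝ}
    (hf : ∀ x ∈ Icc e R, HasDerivAt f (f1 x) x) (hf1 : ∀ x ∈ Icc e R, HasDerivAt f1 (f2 x) x)
    (hf2 : ContinuousOn f2 (Icc e R)) (h0 : ∀ x ∈ Icc e R, 0 ≤ f x) :
    ∫ y in Icc e R, gg e R y * -f2 y ≤ 4 / R * ∫ y in Icc e R, f y := by
  have hR0 : 0 < R := by linarith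
  have hcf : ContinuousOn f (Icc e R) := fun x hx => (hf x hx).continuousAt.continuousWithinAt
  rw [integral_Icc_eq_integral_Ioc, integral_Icc_eq_integral_Ioc,
    ← intervalIntegral.integral_of_le hR, ← intervalIntegral.integral_of_le hR]
  have key := green1 hR (w := gg e R)
    (w1 := fun y => (1 - y / R) ^ 2 - 2 / R * (y - e) * (1 - y / R))
    (w2 := fun y => -(4 / R) * (1 - y / R) + 2 / R ^ 2 * (y - e)) (f := f) (f1 := f1) (f2 := f2)
    (fun x _ => by
      have h1 : HasDerivAt (fun y : ℝ => 1 - y / R) (-(1 / R)) x := by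
        simpa using ((hasDerivAt_id x).div_const R).const_sub 1
      have h2 : HasDerivAt (fun y : ℝ => y - e) 1 x := (hasDerivAt_id x).sub_const e
      have h4 : HasDerivAt (gg e R) _ x := h2.mul (h1.pow 2)
      refine h4.congr_deriv ?_
      simp only [Nat.cast_ofNat, Nat.add_one_sub_one, pow_one]
      field_simp
      ring)
    (fun x _ => by
      have h1 : HasDerivAt (fun y : ℝ => 1 - y / R) (-(1 / R)) x := by
        simpa using ((hasDerivAt_id x).div_const R).const_sub 1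
      have h2 : HasDerivAt (fun y : ℝ => y - e) 1 x := (hasDerivAt_id x).sub_const e
      have h4 : HasDerivAt (fun y => (1 - y / R) ^ 2 - 2 / R * (y - e) * (1 - y / R)) _ x :=
        (h1.pow 2).sub ((h2.const_mul (2 / R)).mul h1)
      refine h4.congr_deriv ?_
      simp only [Nat.cast_ofNat, Nat.add_one_sub_one, pow_one]
      field_simp
      ring)
    hf hf1 (by fun_prop) hf2
  have e1 : gg e R R = 0 := by
    unfold gg
    rw [div_self hR0.ne']
    norm_num
  have e2 : gg e R e = 0 := by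
    unfold gg
    rw [sub_self, zero_mul]
  have e3 : (1 : ℝ) - R / R = 0 := by
    rw [div_self hR0.ne']
    norm_num
  rw [e1, e2, e3] at key
  have hu : uIcc e R = Icc e R := uIcc_of_le hR
  have hi1 : IntervalIntegrable
      (fun y => (-(4 / R) * (1 - y / R) + 2 / R ^ 2 * (y - e)) * f y) volume e R := by
    apply ContinuousOn.intervalIntegrable
    rw [hu]
    exact (by fun_prop : Continuous fun y : ℝ =>
      (-(4 / R) * (1 - y / R) + 2 / R ^ 2 * (y - e))).continuousOn.mul hcf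
  have hi2 : IntervalIntegrable (fun y => gg e R y * f2 y) volume e R := by
    apply ContinuousOn.intervalIntegrable
    rw [hu]
    exact (by unfold gg; fun_prop : Continuous (gg e R)).continuousOn.mul hf2
  rw [intervalIntegral.integral_sub hi1 hi2] at key
  have e5 : ∫ z in e..R, gg e R z * -f2 z = -∫ z in e..R, gg e R z * f2 z := by
    rw [← intervalIntegral.integral_neg]
    congr 1
    ext z
    ring
  rw [e5]
  have e6 : ∫ y in e..R, (-(4 / R) * (1 - y / R) + 2 / R ^ 2 * (y - e)) * f y ≥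
      ∫ y in e..R, -(4 / R) * f y := by
    apply intervalIntegral.integral_mono_on hR _ hi1
    · intro y hy
      apply mul_le_mul_of_nonneg_right _ (h0 y hy)
      have h1 : 0 ≤ y / R := div_nonneg (by linarith [hy.1]) hR0.le
      have h2 : 0 ≤ 2 / R ^ 2 * (y - e) := mul_nonneg (by positivity) (by linarith [hy.1])
      have h3 : 0 ≤ 4 / R * (y / R) := by positivity
      linarith
    · apply ContinuousOn.intervalIntegrable
      rw [hu]
      exact continuousOn_const.mul hcf
  rw [intervalIntegral.integral_const_mul] at e6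
  have e7 : 0 ≤ ((1 - e / R) ^ 2 - 2 / R * (e - e) * (1 - e / R)) * f e := by
    apply mul_nonneg _ (h0 e ⟨le_rfl, hR⟩)
    rw [sub_self]
    simp only [mul_zero, zero_mul, sub_zero]
    exact sq_nonneg _
  nlinarith [key, e6, e7]

/-- the estimate with cut-offs -/
theorem core {e R M' : ℝ} (he : 0 < e) (hR : e ≤ R) {b bz bzz by' byy : ℝ → ℝ → ℝ}
    (hcb : ContinuousOn (fun q : ℝ × ℝ => b q.1 q.2) (univ ×ˢ Ioi 0))
    (hczz : ContinuousOn (fun q : ℝ × ℝ => bzz q.1 q.2) (univ ×ˢ Ioi 0))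
    (hcyy : ContinuousOn (fun q : ℝ × ℝ => byy q.1 q.2) (univ ×ˢ Ioi 0))
    (h1 : ∀ z y : ℝ, 0 < y → HasDerivAt (fun s => b s y) (bz z y) z)
    (h2 : ∀ z y : ℝ, 0 < y → HasDerivAt (fun s => bz s y) (bzz z y) z)
    (h3 : ∀ z y : ℝ, 0 < y → HasDerivAt (fun s => b z s) (by' z y) y)
    (h4 : ∀ z y : ℝ, 0 < y → HasDerivAt (fun s => by' z s) (byy z y) y)
    (h5 : ∀ z y : ℝ, 0 < y → 0 ≤ b z y)
    (h6 : ∀ z y : ℝ, 0 < y → 0 ≤ -(bzz z y + byy z y)) (hM0 : 0 ≤ M')
    (hM : ∀ y : ℝ, 0 < y → ∫⁻ z, ENNReal.ofReal (b z y) ≤ ENNReal.ofReal M') :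
    ∫⁻ p : ℝ × ℝ, ENNReal.ofReal (hh R p.1 * gg e R p.2 * -(bzz p.1 p.2 + byy p.1 p.2))
      ∂((volume.restrict (Icc (-R) R)).prod (volume.restrict (Icc e R))) ≤
        ENNReal.ofReal (8 * M') := by
  have hR0 : 0 < R := by linarith
  set μ := (volume : Measure ℝ).restrict (Icc (-R) R) with hμ
  set ν := (volume : Measure ℝ).restrict (Icc e R) with hν
  have hprod : μ.prod ν = ((volume : Measure ℝ).prod volume).restrict (Icc (-R) R ×ˢ Icc e R) := by
    rw [hμ, hν, Measure.prod_restrict]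
  have hK : IsCompact (Icc (-R) R ×ˢ Icc e R) := isCompact_Icc.prod isCompact_Icc
  have hKsub : Icc (-R) R ×ˢ Icc e R ⊆ (univ : Set ℝ) ×ˢ Ioi (0 : ℝ) := by
    rintro ⟨z, y⟩ ⟨_, hy⟩
    exact ⟨mem_univ _, lt_of_lt_of_le he hy.1⟩
  have hch : Continuous (hh R) := by unfold hh; fun_prop
  have hcg : Continuous (gg e R) := by unfold gg; fun_prop
  have hint : ∀ F : ℝ × ℝ → ℝ, ContinuousOn F (univ ×ˢ Ioi 0) → Integrable F (μ.prod ν) := by
    intro F hF
    rw [hprod]
    exact (hF.mono hKsub).integrableOn_compact hK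
  have hw : ContinuousOn (fun p : ℝ × ℝ => hh R p.1 * gg e R p.2) (univ ×ˢ Ioi 0) :=
    ((hch.comp continuous_fst).mul (hcg.comp continuous_snd)).continuousOn
  have iA := hint (fun p => hh R p.1 * gg e R p.2 * -bzz p.1 p.2) (hw.mul hczz.neg)
  have iB := hint (fun p => hh R p.1 * gg e R p.2 * -byy p.1 p.2) (hw.mul hcyy.neg)
  have iD := hint (fun p => b p.1 p.2) hcb
  -- `z`-slices
  have hcz : ∀ y : ℝ, 0 < y → Continuous fun z => bzz z y := by
    intro y hy
    rw [← continuousOn_univ]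
    exact hczz.comp (f := fun z : ℝ => (z, y)) (by fun_prop) fun z _ => ⟨mem_univ _, hy⟩
  have hcy : ∀ z : ℝ, ContinuousOn (fun y => byy z y) (Icc e R) := by
    intro z
    exact hcyy.comp (f := fun y : ℝ => (z, y)) (by fun_prop)
      fun y hy => ⟨mem_univ _, lt_of_lt_of_le he hy.1⟩
  have hνmem : ∀ᵐ y ∂ν, y ∈ Icc e R := ae_restrict_mem measurableSet_Icc
  have hμmem : ∀ᵐ z ∂μ, z ∈ Icc (-R) R := ae_restrict_mem measurableSet_Icc
  have A1 : ∫ p, hh R p.1 * gg e R p.2 * -bzz p.1 p.2 ∂(μ.prod ν) ≤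
      4 / R * ∫ p, b p.1 p.2 ∂(μ.prod ν) := by
    rw [integral_prod_symm _ iA, integral_prod_symm _ iD, ← integral_const_mul]
    apply integral_mono_ae iA.integral_prod_right (iD.integral_prod_right.const_mul _)
    filter_upwards [hνmem] with y hy
    have hy0 : 0 < y := lt_of_lt_of_le he hy.1
    have q := est_z hR0 (f := fun z => b z y) (f1 := fun z => bz z y) (f2 := fun z => bzz z y)
      (fun x => h1 x y hy0) (fun x => h2 x y hy0) (hcz y hy0) (fun x => h5 x y hy0)
    have q0 : 0 ≤ ∫ z in Icc (-R) R, b z y := integral_nonneg fun z => h5 z y hy0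
    calc ∫ z, hh R z * gg e R y * -bzz z y ∂μ = gg e R y * ∫ z, hh R z * -bzz z y ∂μ := by
          rw [← integral_const_mul]
          congr 1
          ext z
          ring
      _ ≤ gg e R y * (4 / R ^ 2 * ∫ z in Icc (-R) R, b z y) :=
          mul_le_mul_of_nonneg_left q (gg_nonneg hy.1)
      _ ≤ R * (4 / R ^ 2 * ∫ z in Icc (-R) R, b z y) :=
          mul_le_mul_of_nonneg_right (gg_le he hy) (by positivity)
      _ = 4 / R * ∫ z, b z y ∂μ := by
          rw [← hμ]
          field_simp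
  have B1 : ∫ p, hh R p.1 * gg e R p.2 * -byy p.1 p.2 ∂(μ.prod ν) ≤
      4 / R * ∫ p, b p.1 p.2 ∂(μ.prod ν) := by
    rw [integral_prod _ iB, integral_prod _ iD, ← integral_const_mul]
    apply integral_mono_ae iB.integral_prod_left (iD.integral_prod_left.const_mul _)
    filter_upwards [hμmem] with z hz
    have q := est_y he hR (f := fun y => b z y) (f1 := fun y => by' z y) (f2 := fun y => byy z y)
      (fun x hx => h3 z x (lt_of_lt_of_le he hx.1)) (fun x hx => h4 z x (lt_of_lt_of_le he hx.1))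
      (hcy z) (fun x hx => h5 z x (lt_of_lt_of_le he hx.1))
    have q0 : 0 ≤ ∫ y in Icc e R, b z y :=
      setIntegral_nonneg measurableSet_Icc fun y hy => h5 z y (lt_of_lt_of_le he hy.1)
    calc ∫ y, hh R z * gg e R y * -byy z y ∂ν = hh R z * ∫ y, gg e R y * -byy z y ∂ν := by
          rw [← integral_const_mul]
          congr 1
          ext y
          ring
      _ ≤ hh R z * (4 / R * ∫ y in Icc e R, b z y) :=
          mul_le_mul_of_nonneg_left q (hh_nonneg _ _)
      _ ≤ 1 * (4 / R * ∫ y in Icc e R, b z y) :=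
          mul_le_mul_of_nonneg_right (hh_le_one hR0 hz) (by positivity)
      _ = 4 / R * ∫ y, b z y ∂ν := by
          rw [← hν, one_mul]
  have D1 : ∫ p, b p.1 p.2 ∂(μ.prod ν) ≤ M' * R := by
    rw [integral_prod_symm _ iD]
    have hc : Integrable (fun _ : ℝ => M') ν := by
      rw [hν]
      exact (continuousOn_const (c := M')).integrableOn_compact isCompact_Icc
    calc ∫ y, ∫ z, b z y ∂μ ∂ν ≤ ∫ y, M' ∂ν := by
          apply integral_mono_ae iD.integral_prod_right hc
          filter_upwards [hνmem] with y hy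
          have hy0 : 0 < y := lt_of_lt_of_le he hy.1
          have q1 : ∫ z, b z y ∂μ = (∫⁻ z, ENNReal.ofReal (b z y) ∂μ).toReal := by
            apply integral_eq_lintegral_of_nonneg_ae
            · exact Eventually.of_forall fun z => h5 z y hy0
            · have : Continuous fun z => b z y :=
                continuous_iff_continuousAt.2 fun z => (h1 z y hy0).continuousAt
              exact this.aestronglyMeasurable
          rw [q1]
          have q2 : ∫⁻ z, ENNReal.ofReal (b z y) ∂μ ≤ ENNReal.ofReal M' :=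
            (setLIntegral_le_lintegral _ _).trans (hM y hy0)
          exact ENNReal.toReal_le_of_le_ofReal hM0 q2
      _ = M' * (R - e) := by
          rw [hν]
          simp [hR, mul_comm]
      _ ≤ M' * R := mul_le_mul_of_nonneg_left (by linarith) hM0
  have hsum : Integrable (fun p : ℝ × ℝ =>
      hh R p.1 * gg e R p.2 * -(bzz p.1 p.2 + byy p.1 p.2)) (μ.prod ν) := by
    refine (iA.add iB).congr (Eventually.of_forall fun p => ?_)
    simp only [Pi.add_apply]
    ring
  rw [← ofReal_integral_eq_lintegral_ofReal hsum]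
  · apply ENNReal.ofReal_le_ofReal
    have e1 : ∫ p, hh R p.1 * gg e R p.2 * -(bzz p.1 p.2 + byy p.1 p.2) ∂(μ.prod ν) =
        ∫ p, hh R p.1 * gg e R p.2 * -bzz p.1 p.2 ∂(μ.prod ν) +
          ∫ p, hh R p.1 * gg e R p.2 * -byy p.1 p.2 ∂(μ.prod ν) := by
      rw [← integral_add iA iB]
      congr 1
      ext p
      ring
    rw [e1]
    have e2 : 4 / R * ∫ p, b p.1 p.2 ∂(μ.prod ν) ≤ 4 / R * (M' * R) :=
      mul_le_mul_of_nonneg_left D1 (by positivity)
    have e3 : 4 / R * (M' * R) = 4 * M' := by field_simp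
    linarith
  · rw [hprod]
    filter_upwards [ae_restrict_mem (measurableSet_Icc.prod measurableSet_Icc)] with p hp
    have hy : 0 < p.2 := lt_of_lt_of_le he hp.2.1
    exact mul_nonneg (mul_nonneg (hh_nonneg _ _) (gg_nonneg hp.2.1)) (h6 p.1 p.2 hy)

open Pool.Agent.K3h74.GL in
theorem t_GREEN : S_GREEN := by
  classical
  refine ⟨8, by simp, ?_⟩
  intro b bz bzz by' byy hcb hczz hcyy h1 h2 h3 h4 h5 h6 M hM
  rcases eq_or_ne M ∞ with hMt | hMt
  · rw [hMt, ENNReal.mul_top (by norm_num)]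
    exact le_top
  set M' := M.toReal with hM'
  have hMe : M = ENNReal.ofReal M' := (ENNReal.ofReal_toReal hMt).symm
  have hM0 : 0 ≤ M' := ENNReal.toReal_nonneg
  have hmU : MeasurableSet ((univ : Set ℝ) ×ˢ Ioi (0 : ℝ)) := MeasurableSet.univ.prod measurableSet_Ioi
  have hcL : ContinuousOn (fun q : ℝ × ℝ => -(bzz q.1 q.2 + byy q.1 q.2)) (univ ×ˢ Ioi 0) :=
    (hczz.add hcyy).neg
  -- the function on the product
  set F : ℝ × ℝ → ℝ≥0∞ := ((univ : Set ℝ) ×ˢ Ioi (0 : ℝ)).indicator
    (fun p => ENNReal.ofReal (p.2 * -(bzz p.1 p.2 + byy p.1 p.2))) with hF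
  have hmF : Measurable F := by
    rw [hF, ← piecewise_eq_indicator]
    apply ContinuousOn.measurable_piecewise
    · apply ENNReal.continuous_ofReal.comp_continuousOn
      exact continuous_snd.continuousOn.mul hcL
    · exact continuousOn_const
    · exact hmU
  have e1 : ∫⁻ z, ∫⁻ y in Ioi (0 : ℝ), ENNReal.ofReal (y * -(bzz z y + byy z y)) =
      ∫⁻ p, F p ∂((volume : Measure ℝ).prod volume) := by
    rw [lintegral_prod _ hmF.aemeasurable]
    congr 1
    ext z
    rw [← lintegral_indicator measurableSet_Ioi]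
    congr 1
    ext y
    by_cases hy : 0 < y
    · have q1 : y ∈ Ioi (0 : ℝ) := hy
      have q2 : (z, y) ∈ (univ : Set ℝ) ×ˢ Ioi (0 : ℝ) := ⟨mem_univ _, hy⟩
      rw [indicator_of_mem q1, hF, indicator_of_mem q2]
    · have q1 : y ∉ Ioi (0 : ℝ) := hy
      have q2 : (z, y) ∉ (univ : Set ℝ) ×ˢ Ioi (0 : ℝ) := fun h => hy h.2
      rw [indicator_of_notMem q1, hF, indicator_of_notMem q2]
  rw [e1]
  -- the approximations
  set Kn : ℕ → Set (ℝ × ℝ) := fun n => Icc (-((n : ℝ) + 2)) ((n : ℝ) + 2) ×ˢ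
    Icc (((n : ℝ) + 2)⁻¹) ((n : ℝ) + 2) with hKn
  set Fn : ℕ → ℝ × ℝ → ℝ≥0∞ := fun n => (Kn n).indicator (fun p =>
    ENNReal.ofReal (hh ((n : ℝ) + 2) p.1 * gg (((n : ℝ) + 2)⁻¹) ((n : ℝ) + 2) p.2 *
      -(bzz p.1 p.2 + byy p.1 p.2))) with hFn
  have hmK : ∀ n, MeasurableSet (Kn n) := fun n => measurableSet_Icc.prod measurableSet_Icc
  have hKU : ∀ n, Kn n ⊆ (univ : Set ℝ) ×ˢ Ioi (0 : ℝ) := by
    rintro n ⟨z, y⟩ ⟨_, hy⟩
    refine ⟨mem_univ _, lt_of_lt_of_le ?_ hy.1⟩
    positivity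
  have hmFn : ∀ n, Measurable (Fn n) := by
    intro n
    rw [hFn]
    simp only
    rw [← piecewise_eq_indicator]
    apply ContinuousOn.measurable_piecewise
    · apply ENNReal.continuous_ofReal.comp_continuousOn
      have hw : Continuous (fun p : ℝ × ℝ =>
          hh ((n : ℝ) + 2) p.1 * gg (((n : ℝ) + 2)⁻¹) ((n : ℝ) + 2) p.2) := by
        unfold hh gg
        fun_prop
      exact (hw.continuousOn.mul hcL).mono (hKU n)
    · exact continuousOn_const
    · exact hmK n
  have hbd : ∀ n, ∫⁻ p, Fn n p ∂((volume : Measure ℝ).prod volume) ≤ 8 * M := by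
    intro n
    have hn2 : (0 : ℝ) < (n : ℝ) + 2 := by positivity
    have hn1 : (((n : ℝ) + 2)⁻¹) ≤ (n : ℝ) + 2 := by
      have : (1 : ℝ) ≤ (n : ℝ) + 2 := by
        have : (0 : ℝ) ≤ n := Nat.cast_nonneg n
        linarith
      exact (inv_le_one_of_one_le₀ this).trans this
    have q := core (e := ((n : ℝ) + 2)⁻¹) (R := (n : ℝ) + 2) (M' := M') (by positivity) hn1
      hcb hczz hcyy h1 h2 h3 h4 h5 h6 hM0 (fun y hy => by rw [← hMe]; exact hM y hy)
    rw [Measure.prod_restrict] at q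
    rw [lintegral_indicator (hmK n)]
    refine q.trans ?_
    rw [hMe, ENNReal.ofReal_mul (by norm_num)]
    simp
  have hlim : ∀ p, F p ≤ liminf (fun n => Fn n p) atTop := by
    intro p
    by_cases hp : p ∈ (univ : Set ℝ) ×ˢ Ioi (0 : ℝ)
    · have hy : 0 < p.2 := hp.2
      have hF1 : F p = ENNReal.ofReal (p.2 * -(bzz p.1 p.2 + byy p.1 p.2)) := by
        rw [hF, indicator_of_mem hp]
      have ht : Tendsto (fun n : ℕ => (n : ℝ) + 2) atTop atTop :=
        tendsto_atTop_add_const_right _ _ tendsto_natCast_atTop_atTop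
      have hti : Tendsto (fun n : ℕ => ((n : ℝ) + 2)⁻¹) atTop (𝓝 0) :=
        tendsto_inv_atTop_zero.comp ht
      have hev : ∀ᶠ n in atTop, p ∈ Kn n := by
        have q1 : ∀ᶠ n : ℕ in atTop, |p.1| ≤ (n : ℝ) + 2 := ht.eventually_ge_atTop _
        have q2 : ∀ᶠ n : ℕ in atTop, p.2 ≤ (n : ℝ) + 2 := ht.eventually_ge_atTop _
        have q3 : ∀ᶠ n : ℕ in atTop, ((n : ℝ) + 2)⁻¹ < p.2 := hti.eventually_lt_const hy
        filter_upwards [q1, q2, q3] with n a1 a2 a3
        exact ⟨abs_le.1 a1, a3.le, a2⟩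
      have hT : Tendsto (fun n => Fn n p) atTop (𝓝 (F p)) := by
        rw [hF1]
        have hT1 : Tendsto (fun n : ℕ => ENNReal.ofReal (hh ((n : ℝ) + 2) p.1 *
            gg (((n : ℝ) + 2)⁻¹) ((n : ℝ) + 2) p.2 * -(bzz p.1 p.2 + byy p.1 p.2))) atTop
            (𝓝 (ENNReal.ofReal (p.2 * -(bzz p.1 p.2 + byy p.1 p.2)))) := by
          apply ENNReal.tendsto_ofReal
          have a1 : Tendsto (fun n : ℕ => hh ((n : ℝ) + 2) p.1) atTop (𝓝 ((1 - 0 ^ 2) ^ 2)) := by
            unfold hh
            have : Tendsto (fun n : ℕ => p.1 / ((n : ℝ) + 2)) atTop (𝓝 0) :=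
              ht.const_div_atTop _
            exact ((this.pow 2).const_sub 1).pow 2
          have a2 : Tendsto (fun n : ℕ => gg (((n : ℝ) + 2)⁻¹) ((n : ℝ) + 2) p.2) atTop
              (𝓝 ((p.2 - 0) * (1 - 0) ^ 2)) := by
            unfold gg
            have : Tendsto (fun n : ℕ => p.2 / ((n : ℝ) + 2)) atTop (𝓝 0) :=
              ht.const_div_atTop _
            exact (hti.const_sub p.2).mul ((this.const_sub 1).pow 2)
          have a3 := (a1.mul a2).mul_const (-(bzz p.1 p.2 + byy p.1 p.2))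
          convert a3 using 2
          ring
        refine hT1.congr' ?_
        filter_upwards [hev] with n hn
        rw [hFn]
        simp only
        rw [indicator_of_mem hn]
      exact hT.liminf_eq.ge
    · rw [hF, indicator_of_notMem hp]
      exact zero_le
  calc ∫⁻ p, F p ∂((volume : Measure ℝ).prod volume)
      ≤ ∫⁻ p, liminf (fun n => Fn n p) atTop ∂((volume : Measure ℝ).prod volume) :=
        lintegral_mono hlim
    _ ≤ liminf (fun n => ∫⁻ p, Fn n p ∂((volume : Measure ℝ).prod volume)) atTop :=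
        lintegral_liminf_le hmFn
    _ ≤ 8 * M := by
        refine (liminf_le_liminf (Eventually.of_forall hbd)).trans ?_
        simp

end Pool.Agent.K3h56.GL
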